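import Pool.Agent.Run7.h381.WU.Stm

/-!
# Project WU: equivariance
-/

set_option autoImplicit false

namespace Run7.h381.WU

open MeasureTheory Filter Finset
open scoped ENNReal Topology unitInterval
open Pool.Agent.H424R3.Pow (hitWithin returnWithin nbrAvg Recurrent)

variable {V : Type} {G G' : SimpleGraph V}

lemma nbrAvg_iso (γ : G ≃g G') (f : V → ℝ) (x : V) :
    nbrAvg G' f (γ x) = nbrAvg G (fun z => f (γ z)) x := by
  have h1 : G'.neighborSet (γ x) = γ '' G.neighborSet x := by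
    ext y
    constructor
    · intro hy
      refine ⟨γ.symm y, ?_, γ.apply_symm_apply y⟩
      have h2 : G'.Adj (γ x) y := hy
      have h3 : G'.Adj (γ x) (γ (γ.symm y)) := by rw [γ.apply_symm_apply]; exact h2
      exact γ.map_adj_iff.1 h3
    · rintro ⟨z, hz, rfl⟩
      exact γ.map_adj_iff.2 hz
  unfold nbrAvg
  rw [h1, finsum_mem_image γ.injective.injOn, Set.ncard_image_of_injective _ γ.injective]

lemma iter_iso (γ : G ≃g G') (t : ℕ) (f : V → ℝ) (x : V) :
    (nbrAvg G')^[t] f (γ x) = (nbrAvg G)^[t] (fun z => f (γ z)) x := by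
  induction t generalizing f with
  | zero => rfl
  | succ t ih =>
    rw [Function.iterate_succ_apply, Function.iterate_succ_apply, ih]
    have h : (fun z => nbrAvg G' f (γ z)) = nbrAvg G (fun z => f (γ z)) :=
      funext fun z => nbrAvg_iso γ f z
    rw [h]

lemma hh_iso (γ : G ≃g G') (N : ℕ) (x w : V) : hh G' N (γ x) (γ w) = hh G N x w := by
  classical
  unfold hh GA
  congr 1
  refine Finset.sum_congr rfl fun t _ => ?_
  rw [iter_iso]
  have h : (fun z => if γ z = γ w then (1 : ℝ) else 0) = (fun z => if z = w then (1 : ℝ) else 0) := by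
    funext z
    by_cases h : z = w
    · rw [if_pos h, if_pos (congrArg γ h)]
    · rw [if_neg h, if_neg (fun h' => h (γ.injective h'))]
  rw [h]

lemma mem_SS_iso (γ : G ≃g G') (c : ℝ) (N : ℕ) (τ : V → I) (x w : V) :
    γ w ∈ SS c N G' (fun v => τ (γ.symm v)) (γ x) ↔ w ∈ SS c N G τ x := by
  show ((τ (γ.symm (γ w)) : ℝ) < c * hh G' N (γ x) (γ w)) ↔ ((τ w : ℝ) < c * hh G N x w)
  rw [hh_iso, γ.symm_apply_apply]

lemma sim_iso (γ : G ≃g G') (c : ℝ) (N : ℕ) (τ : V → I) (x y : V) :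
    sim c N G' (fun v => τ (γ.symm v)) (γ x) (γ y) ↔ sim c N G τ x y := by
  have h1 : SS c N G' (fun v => τ (γ.symm v)) (γ x) = SS c N G' (fun v => τ (γ.symm v)) (γ y) ↔
      SS c N G τ x = SS c N G τ y := by
    constructor
    · intro h
      ext w
      rw [← mem_SS_iso γ, ← mem_SS_iso γ c N τ y w, h]
    · intro h
      ext w
      obtain ⟨w, rfl⟩ := γ.surjective w
      rw [mem_SS_iso γ, mem_SS_iso γ, h]
  have h2 : (SS c N G' (fun v => τ (γ.symm v)) (γ x)).Nonempty ↔ (SS c N G τ x).Nonempty := by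
    constructor
    · rintro ⟨w, hw⟩
      obtain ⟨w, rfl⟩ := γ.surjective w
      exact ⟨w, (mem_SS_iso γ c N τ x w).1 hw⟩
    · rintro ⟨w, hw⟩
      exact ⟨γ w, (mem_SS_iso γ c N τ x w).2 hw⟩
  show (γ x = γ y ∨ _ ∧ _) ↔ (x = y ∨ _ ∧ _)
  rw [h1, h2, γ.injective.eq_iff]

lemma RR_iso (γ : G ≃g G') (c : ℕ → ℝ) (N : ℕ → ℕ) (a : V → ℕ → I) (k : ℕ) (x y : V) :
    RR c N G' (fun v => a (γ.symm v)) k (γ x) (γ y) ↔ RR c N G a k x y := by
  cases k with
  | zero => exact γ.injective.eq_iff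
  | succ k =>
    constructor
    · intro h j hj
      exact (sim_iso γ (c j) (N j) (fun v => a v (j + 1)) x y).1 (h j hj)
    · intro h j hj
      exact (sim_iso γ (c j) (N j) (fun v => a v (j + 1)) x y).2 (h j hj)

lemma rk_iso (γ : G ≃g G') (ℓ : V → I) (C : Finset V) (v : V) :
    rk (fun v => ℓ (γ.symm v)) (C.map γ.toEquiv.toEmbedding) (γ v) = rk ℓ C v := by
  classical
  unfold rk
  rw [Finset.filter_map, Finset.card_map]
  congr 1
  refine Finset.filter_congr fun w _ => ?_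
  show ℓ (γ.symm (γ w)) < ℓ (γ.symm (γ v)) ↔ ℓ w < ℓ v
  rw [γ.symm_apply_apply, γ.symm_apply_apply]

lemma mem_ins' {G : SimpleGraph V} {C : Finset V} {e : Sym2 V} :
    e ∈ ins G C ↔ e ∈ G.edgeSet ∧ ∀ a ∈ e, a ∈ C := by
  classical
  unfold ins
  rw [Finset.mem_filter, Finset.mem_sym2_iff]
  tauto

lemma edge_iso (γ : G ≃g G') (e : Sym2 V) : Sym2.map γ e ∈ G'.edgeSet ↔ e ∈ G.edgeSet := by
  induction e using Sym2.ind with
  | _ x y =>
    rw [Sym2.map_mk, SimpleGraph.mem_edgeSet, SimpleGraph.mem_edgeSet]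
    exact γ.map_adj_iff

lemma ins_iso (γ : G ≃g G') (C : Finset V) (e : Sym2 V) :
    Sym2.map γ e ∈ ins G' (C.map γ.toEquiv.toEmbedding) ↔ e ∈ ins G C := by
  rw [mem_ins', mem_ins', edge_iso]
  refine and_congr Iff.rfl ?_
  constructor
  · intro h a ha
    have h1 := h (γ a) (Sym2.mem_map.2 ⟨a, ha, rfl⟩)
    obtain ⟨b, hb, hab⟩ := Finset.mem_map.1 h1
    have : b = a := γ.injective hab
    exact this ▸ hb
  · intro h a ha
    obtain ⟨b, hb, rfl⟩ := Sym2.mem_map.1 ha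
    exact Finset.mem_map.2 ⟨b, h b hb, rfl⟩

lemma symm_map (γ : G ≃g G') (e : Sym2 V) : Sym2.map γ (Sym2.map γ.symm e) = e := by
  rw [Sym2.map_map]
  have : (γ ∘ γ.symm : V → V) = id := by
    funext v
    exact γ.apply_symm_apply v
  rw [this, Sym2.map_id]
  rfl

lemma rkI_iso (γ : G ≃g G') (ℓ : V → I) (C : Finset V) (E E' : Finset (Sym2 V))
    (h : ∀ e, Sym2.map γ e ∈ E' ↔ e ∈ E) :
    rkI (fun v => ℓ (γ.symm v)) (C.map γ.toEquiv.toEmbedding) E' = rkI ℓ C E := by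
  classical
  have hc : ∀ e : Sym2 V, Sym2.map (rk (fun v => ℓ (γ.symm v)) (C.map γ.toEquiv.toEmbedding))
      (Sym2.map γ e) = Sym2.map (rk ℓ C) e := by
    intro e
    rw [Sym2.map_map]
    congr 1
    funext v
    exact rk_iso γ ℓ C v
  unfold rkI
  ext p
  rw [Finset.mem_image, Finset.mem_image]
  constructor
  · rintro ⟨e, he, rfl⟩
    refine ⟨Sym2.map γ.symm e, ?_, ?_⟩
    · rw [← h, symm_map]
      exact he
    · rw [← hc, symm_map]
  · rintro ⟨e, he, rfl⟩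
    exact ⟨Sym2.map γ e, (h e).2 he, hc e⟩

lemma isClass_iso (γ : G ≃g G') (r r' : Setoid V) (hr : ∀ x y, r' (γ x) (γ y) ↔ r x y)
    (C : Finset V) : IsClass r' (C.map γ.toEquiv.toEmbedding) ↔ IsClass r C := by
  have hm : ∀ w, γ w ∈ C.map γ.toEquiv.toEmbedding ↔ w ∈ C := by
    intro w
    constructor
    · intro h
      obtain ⟨b, hb, hab⟩ := Finset.mem_map.1 h
      have : b = w := γ.injective hab
      exact this ▸ hb
    · intro h
      exact Finset.mem_map.2 ⟨w, h, rfl⟩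
  constructor
  · rintro ⟨v, hv⟩
    obtain ⟨v, rfl⟩ := γ.surjective v
    refine ⟨v, fun w => ?_⟩
    rw [← hm, hv, hr]
  · rintro ⟨v, hv⟩
    refine ⟨γ v, fun w => ?_⟩
    obtain ⟨w, rfl⟩ := γ.surjective w
    rw [hm, hv, hr]

lemma inn_iso (γ : G ≃g G') (r r' : Setoid V) (hr : ∀ x y, r' (γ x) (γ y) ↔ r x y) (e : Sym2 V) :
    Sym2.map γ e ∈ Inn r' ↔ e ∈ Inn r := by
  constructor
  · intro h a ha b hb
    exact (hr a b).1 (h _ (Sym2.mem_map.2 ⟨a, ha, rfl⟩) _ (Sym2.mem_map.2 ⟨b, hb, rfl⟩))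
  · intro h a ha b hb
    obtain ⟨a', ha', rfl⟩ := Sym2.mem_map.1 ha
    obtain ⟨b', hb', rfl⟩ := Sym2.mem_map.1 hb
    exact (hr a' b').2 (h a' ha' b' hb')

lemma Tk_iso (K : Finset (Sym2 ℕ) → Finset (Sym2 ℕ) → Finset (Sym2 ℕ) → I → Finset (Sym2 ℕ))
    (γ : G ≃g G') (R R' : ℕ → Setoid V) (hR : ∀ k x y, R' k (γ x) (γ y) ↔ R k x y)
    (ℓ : V → I) (ξ : V → ℕ → I) (k : ℕ) (e : Sym2 V) :
    Sym2.map γ e ∈ Tk K G' R' (fun v => ℓ (γ.symm v)) (fun v => ξ (γ.symm v)) k ↔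
      e ∈ Tk K G R ℓ ξ k := by
  classical
  induction k generalizing e with
  | zero => exact Iff.rfl
  | succ k ih =>
    have hsurj : Function.Surjective (fun C : Finset V => C.map γ.toEquiv.toEmbedding) := by
      intro C
      refine ⟨C.map γ.symm.toEquiv.toEmbedding, ?_⟩
      ext v
      constructor
      · intro hv
        obtain ⟨a, ha, hav⟩ := Finset.mem_map.1 hv
        obtain ⟨b, hb, hba⟩ := Finset.mem_map.1 ha
        have h1 : γ a = v := hav
        have h2 : γ.symm b = a := hba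
        have h3 : b = v := by rw [← h1, ← h2, γ.apply_symm_apply]
        exact h3 ▸ hb
      · intro hv
        exact Finset.mem_map.2 ⟨γ.symm v, Finset.mem_map.2 ⟨v, hv, rfl⟩, γ.apply_symm_apply v⟩
    show (∃ C : Finset V, _) ↔ (∃ C : Finset V, _)
    rw [hsurj.exists]
    refine exists_congr fun C => ?_
    refine and_congr (isClass_iso γ _ _ (hR (k + 1)) C) (and_congr (ins_iso γ C e) ?_)
    have h1 : rkI (fun v => ℓ (γ.symm v)) (C.map γ.toEquiv.toEmbedding)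
        (ins G' (C.map γ.toEquiv.toEmbedding)) = rkI ℓ C (ins G C) :=
      rkI_iso γ ℓ C _ _ (ins_iso γ C)
    have h2 : rkI (fun v => ℓ (γ.symm v)) (C.map γ.toEquiv.toEmbedding)
        ((ins G' (C.map γ.toEquiv.toEmbedding)).filter (· ∈ Inn (R' k))) =
        rkI ℓ C ((ins G C).filter (· ∈ Inn (R k))) := by
      refine rkI_iso γ ℓ C _ _ fun e => ?_
      rw [Finset.mem_filter, Finset.mem_filter, ins_iso, inn_iso γ _ _ (hR k)]
    have h3 : rkI (fun v => ℓ (γ.symm v)) (C.map γ.toEquiv.toEmbedding)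
        ((ins G' (C.map γ.toEquiv.toEmbedding)).filter
          (· ∈ Tk K G' R' (fun v => ℓ (γ.symm v)) (fun v => ξ (γ.symm v)) k)) =
        rkI ℓ C ((ins G C).filter (· ∈ Tk K G R ℓ ξ k)) := by
      refine rkI_iso γ ℓ C _ _ fun e => ?_
      rw [Finset.mem_filter, Finset.mem_filter, ins_iso, ih]
    have h4 : Sym2.map (rk (fun v => ℓ (γ.symm v)) (C.map γ.toEquiv.toEmbedding))
        (Sym2.map γ e) = Sym2.map (rk ℓ C) e := by
      rw [Sym2.map_map]
      congr 1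
      funext v
      exact rk_iso γ ℓ C v
    rw [h1, h2, h3, h4]
    constructor
    · rintro ⟨v, hv, hv0, hvK⟩
      obtain ⟨b, hb, rfl⟩ := Finset.mem_map.1 hv
      refine ⟨b, hb, ?_, ?_⟩
      · rw [← rk_iso γ]
        exact hv0
      · have : γ.symm (γ b) = b := γ.symm_apply_apply b
        have h5 : Sym2.map (rk ℓ C) e ∈ K (rkI ℓ C (ins G C))
          (rkI ℓ C ((ins G C).filter (· ∈ Inn (R k))))
          (rkI ℓ C ((ins G C).filter (· ∈ Tk K G R ℓ ξ k))) (ξ (γ.symm (γ b)) (k + 1)) := hvK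
        rw [this] at h5
        exact h5
    · rintro ⟨v, hv, hv0, hvK⟩
      refine ⟨γ v, Finset.mem_map.2 ⟨v, hv, rfl⟩, ?_, ?_⟩
      · rw [rk_iso γ]
        exact hv0
      · have h5 : γ.symm (γ v) = v := γ.symm_apply_apply v
        show Sym2.map (rk ℓ C) e ∈ K _ _ _ (ξ (γ.symm (γ v)) (k + 1))
        rw [h5]
        exact hvK

theorem EQV : S_EQV := by
  intro K c N V G G' γ a ξ
  ext e
  have hT : ∀ k e, Sym2.map γ e ∈ Tk K G' (RR c N G' (fun v => a (γ.symm v)))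
      (fun v => a (γ.symm v) 0) (fun v => ξ (γ.symm v)) k ↔
      e ∈ Tk K G (RR c N G a) (fun v => a v 0) ξ k := fun k e =>
    Tk_iso K γ _ _ (RR_iso γ c N a) (fun v => a v 0) ξ k e
  have key : ∀ e, Sym2.map γ e ∈ Ph K c N G' (fun v => a (γ.symm v)) (fun v => ξ (γ.symm v)) ↔
      e ∈ Ph K c N G a ξ := by
    intro e
    constructor
    · rintro ⟨n, hn⟩
      exact ⟨n, fun k hk => (hT k e).1 (hn k hk)⟩
    · rintro ⟨n, hn⟩
      exact ⟨n, fun k hk => (hT k e).2 (hn k hk)⟩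
  constructor
  · intro he
    refine ⟨Sym2.map γ.symm e, ?_, symm_map γ e⟩
    rw [← key, symm_map]
    exact he
  · rintro ⟨e', he', rfl⟩
    exact (key e').2 he'

end Run7.h381.WU
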