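import Pool.Agent.Run7.h381.WU.Stm

/-!
# Project WU, pieces TRE and DEC: the forests are spanning trees of the classes
-/

set_option autoImplicit false

namespace Run7.h381.WU.PT

open MeasureTheory Filter Finset
open scoped ENNReal Topology unitInterval
open Pool.Agent.TH968.UST (Conn IsSpan trees wired touch ustProb)
open Run7.h381.WU

variable {V : Type}

theorem mem_ins {G : SimpleGraph V} {C : Finset V} {e : Sym2 V} :
    e ∈ ins G C ↔ e ∈ G.edgeSet ∧ ∀ a ∈ e, a ∈ C := by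
  classical
  unfold ins
  rw [Finset.mem_filter, Finset.mem_sym2_iff]
  exact and_comm

theorem rk_lt {ℓ : V → I} {C : Finset V} {v w : V} (hv : v ∈ C) (h : ℓ v < ℓ w) :
    rk ℓ C v < rk ℓ C w := by
  unfold rk
  apply Finset.card_lt_card
  rw [Finset.ssubset_iff_of_subset]
  · exact ⟨v, Finset.mem_filter.2 ⟨hv, h⟩, fun hh => lt_irrefl _ (Finset.mem_filter.1 hh).2⟩
  · intro x hx
    rw [Finset.mem_filter] at hx ⊢
    exact ⟨hx.1, hx.2.trans h⟩

theorem rk_injOn {ℓ : V → I} (hℓ : Function.Injective ℓ) (C : Finset V) :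
    Set.InjOn (rk ℓ C) (C : Set V) := by
  intro v hv w hw h
  by_contra hne
  rcases lt_trichotomy (ℓ v) (ℓ w) with h1 | h1 | h1
  · exact absurd h (rk_lt (Finset.mem_coe.1 hv) h1).ne
  · exact hne (hℓ h1)
  · exact absurd h (rk_lt (Finset.mem_coe.1 hw) h1).ne'

theorem exists_rk_zero {ℓ : V → I} {C : Finset V} (hC : C.Nonempty) : ∃ v ∈ C, rk ℓ C v = 0 := by
  obtain ⟨v, hv, hmin⟩ := C.exists_min_image ℓ hC
  refine ⟨v, hv, ?_⟩
  unfold rk
  rw [Finset.card_eq_zero, Finset.filter_eq_empty_iff]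
  intro w hw h
  exact absurd (hmin w hw) (not_le.2 h)

theorem sym2_map_injOn {W : Type} {f : V → W} {C : Set V} (hf : Set.InjOn f C) {e e' : Sym2 V}
    (he : ∀ a ∈ e, a ∈ C) (he' : ∀ a ∈ e', a ∈ C) (h : Sym2.map f e = Sym2.map f e') : e = e' := by
  induction e using Sym2.ind with
  | _ a b =>
  induction e' using Sym2.ind with
  | _ c d =>
  have ha := he a (Sym2.mem_mk_left a b)
  have hb := he b (Sym2.mem_mk_right a b)
  have hc := he' c (Sym2.mem_mk_left c d)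
  have hd := he' d (Sym2.mem_mk_right c d)
  rw [Sym2.map_mk, Sym2.map_mk, Sym2.eq_iff] at h
  rw [Sym2.eq_iff]
  rcases h with ⟨h1, h2⟩ | ⟨h1, h2⟩
  · exact Or.inl ⟨hf ha hc h1, hf hb hd h2⟩
  · exact Or.inr ⟨hf ha hd h1, hf hb hc h2⟩

theorem isClass_unique {r : Setoid V} {C D : Finset V} (hC : IsClass r C) (hD : IsClass r D)
    {a : V} (haC : a ∈ C) (haD : a ∈ D) : C = D := by
  obtain ⟨v, hv⟩ := hC
  obtain ⟨w, hw⟩ := hD
  have h1 : r v a := (hv a).1 haC
  have h2 : r w a := (hw a).1 haD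
  have h3 : r v w := Setoid.trans' _ h1 (Setoid.symm' _ h2)
  ext x
  rw [hv, hw]
  exact ⟨fun h => Setoid.trans' _ (Setoid.symm' _ h3) h, fun h => Setoid.trans' _ h3 h⟩

theorem isClass_nonempty {r : Setoid V} {C : Finset V} (hC : IsClass r C) : C.Nonempty := by
  obtain ⟨v, hv⟩ := hC
  exact ⟨v, (hv v).2 (Setoid.refl' _ v)⟩

theorem isClass_rel {r : Setoid V} {C : Finset V} (hC : IsClass r C) {a b : V} (ha : a ∈ C) :
    b ∈ C ↔ r a b := by
  obtain ⟨v, hv⟩ := hC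
  rw [hv]
  have h1 : r v a := (hv a).1 ha
  exact ⟨fun h => Setoid.trans' _ (Setoid.symm' _ h1) h, fun h => Setoid.trans' _ h1 h⟩

/-- every vertex is in a class -/
theorem exists_isClass {r : Setoid V} (hr : ∀ v, {w | r v w}.Finite) (v : V) :
    ∃ C : Finset V, IsClass r C ∧ v ∈ C := by
  refine ⟨(hr v).toFinset, ⟨v, fun w => ?_⟩, ?_⟩
  · simp
  · simp

theorem sym2_exists_mem (e : Sym2 V) : ∃ a, a ∈ e := by
  induction e using Sym2.ind with
  | _ a b => exact ⟨a, Sym2.mem_mk_left a b⟩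

theorem mem_rkI {ℓ : V → I} (hℓ : Function.Injective ℓ) {C : Finset V} {E : Finset (Sym2 V)}
    (hE : ∀ e ∈ E, ∀ a ∈ e, a ∈ C) {e : Sym2 V} (he : ∀ a ∈ e, a ∈ C) :
    Sym2.map (rk ℓ C) e ∈ rkI ℓ C E ↔ e ∈ E := by
  unfold rkI
  rw [Finset.mem_image]
  constructor
  · rintro ⟨e', he', h⟩
    have := sym2_map_injOn (rk_injOn hℓ C) (hE e' he') he h
    rwa [← this]
  · intro h
    exact ⟨e, h, rfl⟩

theorem rkI_mono {ℓ : V → I} {C : Finset V} {E E' : Finset (Sym2 V)} (h : E' ⊆ E) :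
    rkI ℓ C E' ⊆ rkI ℓ C E := by
  unfold rkI
  exact Finset.image_subset_image h

open Classical in
theorem rkI_trees (h7 : S_T7) {ℓ : V → I} (hℓ : Function.Injective ℓ) {C : Finset V}
    {E T : Finset (Sym2 V)} (hE : ∀ e ∈ E, ∀ a ∈ e, a ∈ C) (hT : T ⊆ E) :
    rkI ℓ C T ∈ trees ⊥ (rkI ℓ C E) ↔ T ∈ trees ⊥ E := by
  rw [← h7 V ℕ (rk ℓ C) C (rk_injOn hℓ C) E T hE hT]
  have hi : ∀ (i : DecidableEq (Sym2 ℕ)) (S : Finset (Sym2 V)),
      rkI ℓ C S = @Finset.image _ _ i (Sym2.map (rk ℓ C)) S := by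
    intro i S
    ext x
    unfold rkI
    simp only [Finset.mem_image]
  rw [← hi _ E, ← hi _ T]

theorem trees_sub {W : Type} {r : Setoid W} {E T : Finset (Sym2 W)} (h : T ∈ trees r E) : T ⊆ E := by
  classical
  unfold trees at h
  exact Finset.mem_powerset.1 (Finset.mem_filter.1 h).1

theorem empty_mem_trees {W : Type} (r : Setoid W) : (∅ : Finset (Sym2 W)) ∈ trees r ∅ := by
  classical
  unfold trees
  rw [Finset.mem_filter]
  refine ⟨by simp, ?_, ?_, ?_⟩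
  · simp
  · intro a b h
    simp at h
  · intro a b h
    simp at h

open Classical in
/-- the part of a forest inside `C` -/
noncomputable def part (G : SimpleGraph V) (C : Finset V) (S : Set (Sym2 V)) : Finset (Sym2 V) :=
  (ins G C).filter (· ∈ S)

theorem mem_part {G : SimpleGraph V} {C : Finset V} {S : Set (Sym2 V)} {e : Sym2 V} :
    e ∈ part G C S ↔ e ∈ ins G C ∧ e ∈ S := by
  classical
  unfold part
  rw [Finset.mem_filter]

theorem part_sub {G : SimpleGraph V} {C : Finset V} {S : Set (Sym2 V)} : part G C S ⊆ ins G C := by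
  intro e he
  exact (mem_part.1 he).1

/-- the step of the construction, inside a class -/
theorem mem_Tk_succ (K : Finset (Sym2 ℕ) → Finset (Sym2 ℕ) → Finset (Sym2 ℕ) → I → Finset (Sym2 ℕ))
    (G : SimpleGraph V) (R : ℕ → Setoid V) {ℓ : V → I} (hℓ : Function.Injective ℓ)
    (ξ : V → ℕ → I) (k : ℕ) {C : Finset V} (hC : IsClass (R (k + 1)) C) {v : V} (hv : v ∈ C)
    (hv0 : rk ℓ C v = 0) {e : Sym2 V} (he : e ∈ ins G C) :
    e ∈ Tk K G R ℓ ξ (k + 1) ↔ Sym2.map (rk ℓ C) e ∈ K (rkI ℓ C (ins G C))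
      (rkI ℓ C (part G C (Inn (R k)))) (rkI ℓ C (part G C (Tk K G R ℓ ξ k))) (ξ v (k + 1)) := by
  classical
  constructor
  · intro h
    obtain ⟨C', hC', heC', v', hv', hv0', hK⟩ := h
    obtain ⟨a, ha⟩ := sym2_exists_mem e
    have hCC : C' = C := isClass_unique hC' hC ((mem_ins.1 heC').2 a ha) ((mem_ins.1 he).2 a ha)
    subst hCC
    have hvv : v' = v := rk_injOn hℓ C' hv' hv (hv0'.trans hv0.symm)
    subst hvv
    exact hK
  · intro h
    exact ⟨C, hC, he, v, hv, hv0, h⟩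

theorem Tk_sub (K : Finset (Sym2 ℕ) → Finset (Sym2 ℕ) → Finset (Sym2 ℕ) → I → Finset (Sym2 ℕ))
    (G : SimpleGraph V) (R : ℕ → Setoid V) (ℓ : V → I)
    (ξ : V → ℕ → I) (k : ℕ) : Tk K G R ℓ ξ k ⊆ Inn (R k) ∩ G.edgeSet := by
  cases k with
  | zero =>
    intro e he
    exact absurd he (Set.notMem_empty e)
  | succ k =>
    intro e he
    obtain ⟨C, hC, heC, -⟩ := he
    refine ⟨?_, (mem_ins.1 heC).1⟩
    intro a ha b hb
    exact (isClass_rel hC ((mem_ins.1 heC).2 a ha)).1 ((mem_ins.1 heC).2 b hb)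

/-- the edges inside a smaller class -/
theorem filter_part {s t : Setoid V} (hst : s ≤ t) {G : SimpleGraph V} {S : Set (Sym2 V)}
    {C D : Finset V} (hC : IsClass t C) (hD : IsClass s D) {v : V}
    (hvC : v ∈ C) (hvD : v ∈ D) (e : Sym2 V) :
    (e ∈ part G C S ∧ ∀ a ∈ e, s v a) ↔ e ∈ part G D S := by
  rw [mem_part, mem_part, mem_ins, mem_ins]
  constructor
  · rintro ⟨⟨⟨h1, -⟩, h3⟩, h4⟩
    exact ⟨⟨h1, fun a ha => (isClass_rel hD hvD).2 (h4 a ha)⟩, h3⟩
  · rintro ⟨⟨h1, h2⟩, h3⟩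
    have h4 : ∀ a ∈ e, s v a := fun a ha => (isClass_rel hD hvD).1 (h2 a ha)
    exact ⟨⟨⟨h1, fun a ha => (isClass_rel hC hvC).2 (hst (h4 a ha))⟩, h3⟩, h4⟩

theorem part_ins {s : Setoid V} {G : SimpleGraph V} {D : Finset V} (hD : IsClass s D) :
    part G D (Inn s) = ins G D := by
  ext e
  rw [mem_part]
  refine ⟨fun h => h.1, fun h => ⟨h, fun a ha b hb => ?_⟩⟩
  exact (isClass_rel hD ((mem_ins.1 h).2 a ha)).1 ((mem_ins.1 h).2 b hb)

theorem part_mem (h6 : S_T6) {G : SimpleGraph V} {s t : Setoid V} (hst : s ≤ t)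
    (hs : ∀ v, {w | s v w}.Finite) {C : Finset V} (hC : IsClass t C) (T : Finset (Sym2 V)) :
    T ∈ trees ⊥ (part G C (Inn s)) ↔ T ⊆ part G C (Inn s) ∧
      ∀ D, IsClass s D → D ⊆ C → part G D T ∈ trees ⊥ (ins G D) := by
  classical
  rw [h6 V s (part G C (Inn s)) T (fun e he => (mem_part.1 he).2)]
  refine and_congr_right fun hTC => ?_
  have e1 : ∀ (D : Finset V) (v : V), IsClass s D → v ∈ C → v ∈ D →
      T.filter (fun e => ∀ a ∈ e, s v a) = part G D T := by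
    intro D v hD hvC hvD
    ext e
    rw [← filter_part hst hC hD hvC hvD, mem_part, Finset.mem_filter]
    refine ⟨fun hh => ⟨⟨?_, hh.1⟩, hh.2⟩, fun hh => ⟨hh.1.2, hh.2⟩⟩
    exact (mem_part.1 (hTC hh.1)).1
  have e2 : ∀ (D : Finset V) (v : V), IsClass s D → v ∈ C → v ∈ D →
      (part G C (Inn s)).filter (fun e => ∀ a ∈ e, s v a) = ins G D := by
    intro D v hD hvC hvD
    rw [← part_ins hD]
    ext e
    rw [← filter_part hst hC hD hvC hvD, Finset.mem_filter]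
  refine ⟨fun h D hD hDC => ?_, fun h v => ?_⟩
  · obtain ⟨v, hv⟩ := isClass_nonempty hD
    have h' := h v
    rw [e1 D v hD (hDC hv) hv, e2 D v hD (hDC hv) hv] at h'
    exact h'
  · by_cases hv : v ∈ C
    · obtain ⟨D, hD, hvD⟩ := exists_isClass hs v
      have hDC : D ⊆ C := by
        intro w hw
        exact (isClass_rel hC hv).2 (hst ((isClass_rel hD hvD).1 hw))
      rw [e1 D v hD hv hvD, e2 D v hD hv hvD]
      exact h D hD hDC
    · have he : ∀ X : Finset (Sym2 V), X ⊆ part G C (Inn s) →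
          X.filter (fun e => ∀ a ∈ e, s v a) = ∅ := by
        intro X hX
        rw [Finset.filter_eq_empty_iff]
        intro e heX hsv
        obtain ⟨a, ha⟩ := sym2_exists_mem e
        have haC := (mem_ins.1 (mem_part.1 (hX heX)).1).2 a ha
        exact hv ((isClass_rel hC haC).2 (hst (Setoid.symm' _ (hsv a ha))))
      rw [he _ hTC, he _ (Finset.Subset.refl _)]
      exact empty_mem_trees _

theorem part_part {G : SimpleGraph V} {C D : Finset V} (hDC : D ⊆ C) (S : Set (Sym2 V)) :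
    part G D (part G C S : Set (Sym2 V)) = part G D S := by
  ext e
  rw [mem_part, mem_part, Finset.mem_coe, mem_part]
  refine ⟨fun h => ⟨h.1, h.2.2⟩, fun h => ⟨h.1, ⟨?_, h.2⟩⟩⟩
  rw [mem_ins] at h ⊢
  exact ⟨h.1.1, fun a ha => hDC (h.1.2 a ha)⟩

/-- from the classes to the classes of a coarser relation -/
theorem bc (h6 : S_T6) {G : SimpleGraph V} {s t : Setoid V} (hst : s ≤ t)
    (hs : ∀ v, {w | s v w}.Finite) {S : Set (Sym2 V)} (hS : S ⊆ Inn s)
    (hb : ∀ D, IsClass s D → part G D S ∈ trees ⊥ (ins G D)) {C : Finset V}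
    (hC : IsClass t C) : part G C S ∈ trees ⊥ (part G C (Inn s)) := by
  rw [part_mem h6 hst hs hC]
  refine ⟨fun e he => ?_, fun D hD hDC => ?_⟩
  · rw [mem_part] at he ⊢
    exact ⟨he.1, hS he.2⟩
  · rw [part_part hDC]
    exact hb D hD

/-- the choice of the kernel on the class `C`, given the forest `S` of the smaller classes -/
noncomputable def choice
    (K : Finset (Sym2 ℕ) → Finset (Sym2 ℕ) → Finset (Sym2 ℕ) → I → Finset (Sym2 ℕ))
    (G : SimpleGraph V) (s : Setoid V) (ℓ : V → I) (C : Finset V) (S : Finset (Sym2 V)) (η : I) :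
    Finset (Sym2 V) :=
  part G C {e | Sym2.map (rk ℓ C) e ∈
    K (rkI ℓ C (ins G C)) (rkI ℓ C (part G C (Inn s))) (rkI ℓ C S) η}

theorem rkI_choice {K : Finset (Sym2 ℕ) → Finset (Sym2 ℕ) → Finset (Sym2 ℕ) → I → Finset (Sym2 ℕ)}
    (hK : IsKernel K) (h7 : S_T7) {G : SimpleGraph V} {s : Setoid V} {ℓ : V → I}
    (hℓ : Function.Injective ℓ) {C : Finset V} {S : Finset (Sym2 V)} {η : I}
    (hS : S ∈ trees ⊥ (part G C (Inn s))) :
    rkI ℓ C (choice K G s ℓ C S η) = K (rkI ℓ C (ins G C)) (rkI ℓ C (part G C (Inn s)))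
      (rkI ℓ C S) η := by
  have hpC : ∀ e ∈ part G C (Inn s), ∀ a ∈ e, a ∈ C :=
    fun e he => (mem_ins.1 (part_sub he)).2
  have hmem := hK.mem (rkI ℓ C (ins G C)) (rkI ℓ C (part G C (Inn s))) (rkI ℓ C S) η
    (rkI_mono part_sub) ((rkI_trees h7 hℓ hpC (trees_sub hS)).2 hS)
  have hsub := trees_sub hmem
  ext x
  constructor
  · intro hx
    unfold rkI at hx
    rw [Finset.mem_image] at hx
    obtain ⟨e, he, rfl⟩ := hx
    exact (mem_part.1 he).2
  · intro hx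
    have hx' := hsub hx
    unfold rkI at hx'
    rw [Finset.mem_image] at hx'
    obtain ⟨e, he, rfl⟩ := hx'
    unfold rkI
    rw [Finset.mem_image]
    exact ⟨e, mem_part.2 ⟨he, hx⟩, rfl⟩

theorem choice_mem {K : Finset (Sym2 ℕ) → Finset (Sym2 ℕ) → Finset (Sym2 ℕ) → I → Finset (Sym2 ℕ)}
    (hK : IsKernel K) (h7 : S_T7) {G : SimpleGraph V} {s : Setoid V} {ℓ : V → I}
    (hℓ : Function.Injective ℓ) {C : Finset V} {S : Finset (Sym2 V)} {η : I}
    (hS : S ∈ trees ⊥ (part G C (Inn s))) :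
    choice K G s ℓ C S η ∈ trees ⊥ (ins G C) := by
  have hpC : ∀ e ∈ part G C (Inn s), ∀ a ∈ e, a ∈ C :=
    fun e he => (mem_ins.1 (part_sub he)).2
  have hch : choice K G s ℓ C S η ⊆ ins G C := part_sub
  rw [← rkI_trees h7 hℓ (fun e he => (mem_ins.1 he).2) hch, rkI_choice hK h7 hℓ hS]
  exact hK.mem _ _ _ η (rkI_mono part_sub) ((rkI_trees h7 hℓ hpC (trees_sub hS)).2 hS)

theorem part_Tk_succ
    (K : Finset (Sym2 ℕ) → Finset (Sym2 ℕ) → Finset (Sym2 ℕ) → I → Finset (Sym2 ℕ))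
    (G : SimpleGraph V) (R : ℕ → Setoid V) {ℓ : V → I} (hℓ : Function.Injective ℓ)
    (ξ : V → ℕ → I) (k : ℕ) {C : Finset V} (hC : IsClass (R (k + 1)) C) {v : V} (hv : v ∈ C)
    (hv0 : rk ℓ C v = 0) :
    part G C (Tk K G R ℓ ξ (k + 1)) =
      choice K G (R k) ℓ C (part G C (Tk K G R ℓ ξ k)) (ξ v (k + 1)) := by
  ext e
  unfold choice
  rw [mem_part, mem_part]
  exact and_congr_right fun he => mem_Tk_succ K G R hℓ ξ k hC hv hv0 he

/-- the forests are spanning trees of the classes -/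
theorem tre_aux (h6 : S_T6) (h7 : S_T7)
    {K : Finset (Sym2 ℕ) → Finset (Sym2 ℕ) → Finset (Sym2 ℕ) → I → Finset (Sym2 ℕ)}
    (hK : IsKernel K) (G : SimpleGraph V) (R : ℕ → Setoid V) {ℓ : V → I} (ξ : V → ℕ → I)
    (h0 : R 0 = ⊥) (hR : Monotone R) (hfin : ∀ k v, {w | R k v w}.Finite)
    (hℓ : Function.Injective ℓ) (k : ℕ) :
    ∀ C, IsClass (R k) C → part G C (Tk K G R ℓ ξ k) ∈ trees ⊥ (ins G C) := by
  induction k with
  | zero =>
    intro C hC
    have h1 : ins G C = ∅ := by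
      rw [Finset.eq_empty_iff_forall_notMem]
      intro e he
      induction e using Sym2.ind with
      | _ a b =>
      rw [mem_ins] at he
      have ha := he.2 a (Sym2.mem_mk_left a b)
      have hb := he.2 b (Sym2.mem_mk_right a b)
      have hab : R 0 a b := (isClass_rel hC ha).1 hb
      rw [h0, Setoid.bot_def] at hab
      subst hab
      exact G.loopless.irrefl a (G.mem_edgeSet.1 he.1)
    have h2 : part G C (Tk K G R ℓ ξ 0) = ∅ := by
      have := part_sub (G := G) (C := C) (S := Tk K G R ℓ ξ 0)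
      rw [h1] at this
      exact Finset.subset_empty.1 this
    rw [h1, h2]
    exact empty_mem_trees _
  | succ k ih =>
    intro C hC
    obtain ⟨v, hv, hv0⟩ := exists_rk_zero (ℓ := ℓ) (isClass_nonempty hC)
    rw [part_Tk_succ K G R hℓ ξ k hC hv hv0]
    refine choice_mem hK h7 hℓ ?_
    exact bc h6 (hR (Nat.le_succ k)) (hfin k)
      (fun e he => (Tk_sub K G R ℓ ξ k he).1) ih hC

theorem TRE : S_T6 → S_T7 → S_TRE := by
  classical
  intro h6 h7 K hK V G R ℓ ξ h0 hR hfin hℓ k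
  have hb := tre_aux h6 h7 hK G R ξ h0 hR hfin hℓ k
  refine ⟨Tk_sub K G R ℓ ξ k, ?_, ?_⟩
  · intro C hC
    have := hb C hC
    unfold part at this
    convert this
  · intro C hC
    have := bc h6 (hR (Nat.le_succ k)) (hfin k)
      (fun e he => (Tk_sub K G R ℓ ξ k he).1) hb hC
    unfold part at this
    convert this

theorem DEC : S_T6 → S_T7 → S_DEC := by
  classical
  intro h6 h7 K hK V G R ℓ ξ h0 hR hfin hℓ k e he
  obtain ⟨heT, heI⟩ := he
  obtain ⟨C, hC, heC, -⟩ := id heT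
  obtain ⟨v, hv, hv0⟩ := exists_rk_zero (ℓ := ℓ) (isClass_nonempty hC)
  rw [mem_Tk_succ K G R hℓ ξ k hC hv hv0 heC] at heT
  have hb := tre_aux h6 h7 hK G R ξ h0 hR hfin hℓ k
  have hc := bc h6 (hR (Nat.le_succ k)) (hfin k)
      (fun e he => (Tk_sub K G R ℓ ξ k he).1) hb hC
  have hpC : ∀ e ∈ part G C (Inn (R k)), ∀ a ∈ e, a ∈ C :=
    fun e he => (mem_ins.1 (part_sub he)).2
  have hsub := hK.sub (rkI ℓ C (ins G C)) (rkI ℓ C (part G C (Inn (R k))))
    (rkI ℓ C (part G C (Tk K G R ℓ ξ k))) (ξ v (k + 1))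
    (rkI_mono part_sub) ((rkI_trees h7 hℓ hpC (trees_sub hc)).2 hc)
  have h1 : Sym2.map (rk ℓ C) e ∈ rkI ℓ C (part G C (Inn (R k))) :=
    (mem_rkI hℓ hpC (mem_ins.1 heC).2).2 (mem_part.2 ⟨heC, heI⟩)
  have h2 := hsub (Finset.mem_inter.2 ⟨heT, h1⟩)
  rw [mem_rkI hℓ (fun e he => (mem_ins.1 (part_sub he)).2) (mem_ins.1 heC).2] at h2
  exact (mem_part.1 h2).2

end Run7.h381.WU.PT
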