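import Mathlib
import Pool.Agent.TH968.UST.Defs
import Pool.Agent.H424R3.PowDefs

/-!
# The wired uniform spanning tree of a recurrent unimodular graph is a factor of iid: definitions

MP_688e31_pr (helper381).  The uniform spanning tree of a finite edge set with identified vertices
is the one of `Pool.Agent.TH968.UST`; unimodular random rooted graphs and the return probabilities
of simple random walk are those of `Pool.Agent.H424R3.Pow`.
-/

set_option autoImplicit false

namespace Run7.h381.WU

open MeasureTheory Filter Finset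
open scoped ENNReal Topology unitInterval
open Pool.Agent.TH968.UST (Conn IsSpan trees wired touch ustProb)
open Pool.Agent.H424R3.Pow (RandomRootedGraph graphSigma hitWithin returnWithin nbrAvg Recurrent)

/-! ## Statement of the problem -/

section problem

variable {V : Type}

/-- `G` is recurrent: simple random walk started at any vertex returns to it almost surely. -/
def Rec (G : SimpleGraph V) : Prop := ∀ o, Recurrent G o

/-- i.i.d. uniform `[0,1]` labels on the vertices -/
noncomputable def labels (V : Type) : Measure (V → I) := Measure.infinitePi fun _ => (volume : Measure I)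

/-- `Φ` is a measurable, isomorphism-equivariant map from labelled graphs to edge subsets. -/
structure IsFactorMap (Φ : SimpleGraph V → (V → I) → Set (Sym2 V)) : Prop where
  /-- `Φ` is measurable -/
  measurable : ∀ e : Sym2 V,
    @MeasurableSet (SimpleGraph V × (V → I)) (@Prod.instMeasurableSpace _ _ (graphSigma V) _)
      {p | e ∈ Φ p.1 p.2}
  /-- the values are sets of edges of the graph -/
  subset : ∀ G u, Φ G u ⊆ G.edgeSet
  /-- equivariance under all isomorphisms -/
  equivariant : ∀ (G G' : SimpleGraph V) (γ : G ≃g G') (u : V → I),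
    Φ G' (fun v => u (γ.symm v)) = Sym2.map γ '' Φ G u

/-- an exhaustion of `G` by finite connected sets of vertices -/
structure Exhaustion (G : SimpleGraph V) (B : ℕ → Finset V) : Prop where
  mono : Monotone B
  union : ∀ v, ∃ n, v ∈ B n
  connected : ∀ n, (G.induce (B n : Set V)).Connected

/-- The law of the random edge set `T`, on the probability space `(Θ, Q)`, is the wired uniform
spanning forest of `G`: for every exhaustion of `G` by finite connected sets `B n` and every finite
set `F` of edges, the law of `T ∩ F` is the limit of the laws of `T_n ∩ F`, where `T_n` is the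
uniform spanning tree of the graph obtained from `G` by identifying all vertices outside `B n`. -/
def HasLawWUSF (G : SimpleGraph V) {Θ : Type} [MeasurableSpace Θ] (Q : Measure Θ)
    (T : Θ → Set (Sym2 V)) : Prop :=
  ∀ B : ℕ → Finset V, Exhaustion G B → ∀ (F : Finset (Sym2 V)) (A : Set (Sym2 V)),
    Tendsto (fun n => ustProb (wired (B n)) (touch G (B n)) F A) atTop
      (𝓝 (Q {θ | T θ ∩ F = A}).toReal)

end problem

/-! ## Finite spanning trees -/

section finite

variable {V : Type}

open Classical in
/-- the edges of `G` inside the finite set `C` -/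
noncomputable def ins (G : SimpleGraph V) (C : Finset V) : Finset (Sym2 V) :=
  C.sym2.filter (· ∈ G.edgeSet)

/-- the edges (pairs) inside the classes of `r` -/
def Inn (r : Setoid V) : Set (Sym2 V) := {e | ∀ a ∈ e, ∀ b ∈ e, r a b}

/-- the mean value of `g` at a uniform spanning tree of `(r, E)` -/
noncomputable def Av (r : Setoid V) (E : Finset (Sym2 V)) (g : Finset (Sym2 V) → ℝ) : ℝ :=
  (∑ T ∈ trees r E, g T) / (trees r E).card

/-- identify also `x` and `y` -/
def glue (r : Setoid V) (x y : V) : Setoid V := r ⊔ Relation.EqvGen.setoid (fun a b => a = x ∧ b = y)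

/-- number of members of `B` containing `J` and disjoint from `O` -/
def cnt {α : Type} [DecidableEq α] (B : Finset (Finset α)) (J O : Finset α) : ℕ :=
  (B.filter (fun T => J ⊆ T ∧ Disjoint O T)).card

/-- hereditary pairwise negative correlation -/
def HNC {α : Type} [DecidableEq α] (B : Finset (Finset α)) : Prop :=
  ∀ (J O : Finset α) (e f : α), e ≠ f →
    cnt B (insert e (insert f J)) O * cnt B J O ≤ cnt B (insert e J) O * cnt B (insert f J) O

/-- product of the differences of two functions along an edge -/
def dd (φ ψ : V → ℝ) : Sym2 V → ℝ :=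
  Sym2.lift ⟨fun a b => (φ a - φ b) * (ψ a - ψ b), fun a b => by ring⟩

/-- the Dirichlet form -/
noncomputable def DF (E : Finset (Sym2 V)) (φ ψ : V → ℝ) : ℝ := ∑ e ∈ E, dd φ ψ e

/-- `φ` is constant on the classes of `r` -/
def Inv (r : Setoid V) (φ : V → ℝ) : Prop := ∀ a b, r a b → φ a = φ b

/-- `φ` is the potential of the unit current from `x` to `y` -/
def IsPot (r : Setoid V) (E : Finset (Sym2 V)) (x y : V) (φ : V → ℝ) : Prop :=
  Inv r φ ∧ ∀ ψ, Inv r ψ → DF E φ ψ = ψ x - ψ y

end finite

/-! ## The sampling kernels and the forests -/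

section forests

/-- a measurable choice, from a uniform label, of a spanning tree of `E` whose part in `E'` is
contained in the given tree of `E'`, uniform if the given tree is uniform -/
structure IsKernel (K : Finset (Sym2 ℕ) → Finset (Sym2 ℕ) → Finset (Sym2 ℕ) → I → Finset (Sym2 ℕ)) :
    Prop where
  meas : ∀ E E' T' T, MeasurableSet {ξ | K E E' T' ξ = T}
  mem : ∀ E E' T' ξ, E' ⊆ E → T' ∈ trees ⊥ E' → K E E' T' ξ ∈ trees ⊥ E
  sub : ∀ E E' T' ξ, E' ⊆ E → T' ∈ trees ⊥ E' → K E E' T' ξ ∩ E' ⊆ T'
  unif : ∀ E E' T, E' ⊆ E → T ∈ trees ⊥ E →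
    ∑ T' ∈ trees ⊥ E', (volume {ξ | K E E' T' ξ = T}).toReal =
      ((trees (⊥ : Setoid ℕ) E').card : ℝ) / (trees (⊥ : Setoid ℕ) E).card

variable {V : Type}

/-- the number of the members of `C` with smaller label -/
noncomputable def rk (ℓ : V → I) (C : Finset V) (v : V) : ℕ := (C.filter (fun w => ℓ w < ℓ v)).card

/-- `C` is a class of `r` -/
def IsClass (r : Setoid V) (C : Finset V) : Prop := ∃ v, ∀ w, w ∈ C ↔ r v w

open Classical in
/-- the image of a set of pairs under the ranks in `C` -/
noncomputable def rkI (ℓ : V → I) (C : Finset V) (E : Finset (Sym2 V)) : Finset (Sym2 ℕ) :=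
  E.image (Sym2.map (rk ℓ C))

open Classical in
/-- The forests: `Tk (k + 1)` is in each class `C` of `R (k + 1)` the spanning tree chosen by the
kernel, given the part of `Tk k` in `C`, with the label of the vertex of smallest rank. -/
noncomputable def Tk (K : Finset (Sym2 ℕ) → Finset (Sym2 ℕ) → Finset (Sym2 ℕ) → I → Finset (Sym2 ℕ))
    (G : SimpleGraph V) (R : ℕ → Setoid V) (ℓ : V → I) (ξ : V → ℕ → I) : ℕ → Set (Sym2 V)
  | 0 => ∅
  | k + 1 => {e | ∃ C : Finset V, IsClass (R (k + 1)) C ∧ e ∈ ins G C ∧ ∃ v ∈ C, rk ℓ C v = 0 ∧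
      Sym2.map (rk ℓ C) e ∈ K (rkI ℓ C (ins G C)) (rkI ℓ C ((ins G C).filter (· ∈ Inn (R k))))
        (rkI ℓ C ((ins G C).filter (· ∈ Tk K G R ℓ ξ k))) (ξ v (k + 1))}

/-- the limit forest -/
def Tlim (K : Finset (Sym2 ℕ) → Finset (Sym2 ℕ) → Finset (Sym2 ℕ) → I → Finset (Sym2 ℕ))
    (G : SimpleGraph V) (R : ℕ → Setoid V) (ℓ : V → I) (ξ : V → ℕ → I) : Set (Sym2 V) :=
  {e | ∃ n, ∀ k, n ≤ k → e ∈ Tk K G R ℓ ξ k}

end forests

/-! ## The partitions -/

section partitions

variable {V : Type}

/-- the mean value of `g` over the first `N` steps of simple random walk -/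
noncomputable def GA (G : SimpleGraph V) (N : ℕ) (g : V → ℝ) (x : V) : ℝ :=
  (∑ t ∈ range N, (nbrAvg G)^[t] g x) / N

open Classical in
/-- the averaged law of the walk from `x` -/
noncomputable def hh (G : SimpleGraph V) (N : ℕ) (x w : V) : ℝ :=
  GA G N (fun z => if z = w then 1 else 0) x

/-- the vertices chosen by `x` -/
def SS (c : ℝ) (N : ℕ) (G : SimpleGraph V) (τ : V → I) (x : V) : Set V :=
  {w | (τ w : ℝ) < c * hh G N x w}

/-- `x` and `y` are equal or choose the same, non-empty set -/
def sim (c : ℝ) (N : ℕ) (G : SimpleGraph V) (τ : V → I) : Setoid V where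
  r x y := x = y ∨ (SS c N G τ x = SS c N G τ y ∧ (SS c N G τ x).Nonempty)
  iseqv := ⟨fun _ => Or.inl rfl,
    fun h => h.elim (fun h => Or.inl h.symm) fun h => Or.inr ⟨h.1.symm, h.1 ▸ h.2⟩,
    fun {a b d} h1 h2 => by
      rcases h1 with rfl | h1
      · exact h2
      · rcases h2 with rfl | h2
        · exact Or.inr h1
        · exact Or.inr ⟨h1.1.trans h2.1, h1.2⟩⟩

/-- the increasing sequence of partitions: `R 0` is equality, `R (k + 1)` is the common refinement
of the relations number `k`, `k + 1`, ...; number `j` uses the labels `a v (j + 1)` -/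
def RR (c : ℕ → ℝ) (N : ℕ → ℕ) (G : SimpleGraph V) (a : V → ℕ → I) : ℕ → Setoid V
  | 0 => ⊥
  | k + 1 => { r := fun x y => ∀ j, k ≤ j → sim (c j) (N j) G (fun v => a v (j + 1)) x y
               iseqv := ⟨fun _ _ _ => Setoid.refl' _ _,
                 fun h j hj => Setoid.symm' _ (h j hj),
                 fun h1 h2 j hj => Setoid.trans' _ (h1 j hj) (h2 j hj)⟩ }

/-- the random forest before the splitting of the labels: `a` are the labels of the partitions and
of the ranks, `ξ` are the labels of the kernels -/
def Ph (K : Finset (Sym2 ℕ) → Finset (Sym2 ℕ) → Finset (Sym2 ℕ) → I → Finset (Sym2 ℕ))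
    (c : ℕ → ℝ) (N : ℕ → ℕ) (G : SimpleGraph V) (a ξ : V → ℕ → I) : Set (Sym2 V) :=
  Tlim K G (RR c N G a) (fun v => a v 0) ξ

/-- i.i.d. sequences of uniform labels -/
noncomputable def labels2 (V : Type) : Measure (V → ℕ → I) :=
  Measure.infinitePi fun _ => Measure.infinitePi fun _ => (volume : Measure I)

end partitions

end Run7.h381.WU
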