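import Pool.Agent.Run7.h381.WU.Stm

/-!
# Project WU: assembly
-/

set_option autoImplicit false

namespace Run7.h381.WU

open MeasureTheory Filter Finset
open scoped ENNReal Topology unitInterval
open Pool.Agent.TH968.UST (Conn IsSpan trees wired touch ustProb)
open Pool.Agent.H424R3.Pow (RandomRootedGraph graphSigma hitWithin returnWithin nbrAvg Recurrent)

variable {V : Type}

lemma RR_mono (c : ℕ → ℝ) (N : ℕ → ℕ) (G : SimpleGraph V) (a : V → ℕ → I) : Monotone (RR c N G a) := by
  apply monotone_nat_of_le_succ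
  intro k x y h
  cases k with
  | zero =>
    have h' : x = y := h
    subst h'
    exact Setoid.refl' _ _
  | succ k => exact fun j hj => h j (by omega)

lemma RR_fin (hFINC : S_FINC) (c : ℕ → ℝ) (N : ℕ → ℕ) (hN : ∀ k, 1 ≤ N k) (G : SimpleGraph V)
    (hG : ∀ x, (G.neighborSet x).Finite) (a : V → ℕ → I) (k : ℕ) (v : V) :
    {w | RR c N G a k v w}.Finite := by
  cases k with
  | zero =>
    refine (Set.finite_singleton v).subset ?_
    intro w hw
    have hw' : v = w := hw
    exact hw'.symm
  | succ k =>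
    refine (hFINC V G hG (c k) (N k) (fun v => a v (k + 1)) v (hN k)).subset ?_
    intro w hw
    exact hw k le_rfl

lemma mem_ins {G : SimpleGraph V} {C : Finset V} {e : Sym2 V} :
    e ∈ ins G C ↔ e ∈ G.edgeSet ∧ ∀ a ∈ e, a ∈ C := by
  classical
  unfold ins
  rw [Finset.mem_filter, Finset.mem_sym2_iff]
  tauto

lemma Tk_subset (K : Finset (Sym2 ℕ) → Finset (Sym2 ℕ) → Finset (Sym2 ℕ) → I → Finset (Sym2 ℕ))
    (G : SimpleGraph V) (R : ℕ → Setoid V) (ℓ : V → I) (ξ : V → ℕ → I) (k : ℕ) :
    Tk K G R ℓ ξ k ⊆ G.edgeSet := by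
  intro e he
  cases k with
  | zero => exact he.elim
  | succ k =>
    obtain ⟨C, _, he, _⟩ := he
    exact (mem_ins.1 he).1

lemma Tlim_subset (K : Finset (Sym2 ℕ) → Finset (Sym2 ℕ) → Finset (Sym2 ℕ) → I → Finset (Sym2 ℕ))
    (G : SimpleGraph V) (R : ℕ → Setoid V) (ℓ : V → I) (ξ : V → ℕ → I) :
    Tlim K G R ℓ ξ ⊆ G.edgeSet := by
  rintro e ⟨n, hn⟩
  exact Tk_subset K G R ℓ ξ n (hn n le_rfl)

/-- in a connected graph all whose edges are eventually inside the classes, any two vertices are
eventually equivalent -/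
lemma eventually_rel {G : SimpleGraph V} (hc : G.Connected) {R : ℕ → Setoid V} (hR : Monotone R)
    (hex : ∀ x y, G.Adj x y → ∃ k, R k x y) (x y : V) : ∃ k, ∀ j, k ≤ j → R j x y := by
  obtain ⟨p⟩ := hc.preconnected x y
  induction p with
  | nil => exact ⟨0, fun j _ => Setoid.refl' _ _⟩
  | @cons u v w h p ih =>
    obtain ⟨k1, h1⟩ := hex u v h
    obtain ⟨k2, h2⟩ := ih
    exact ⟨max k1 k2, fun j hj => Setoid.trans' _ (hR (le_trans (le_max_left _ _) hj) h1)
      (h2 j (le_trans (le_max_right _ _) hj))⟩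

/-- the core: the law of the limit forest for fixed partitions -/
lemma core (hLAW : S_LAW) (hDEC : S_DEC)
    (K : Finset (Sym2 ℕ) → Finset (Sym2 ℕ) → Finset (Sym2 ℕ) → I → Finset (Sym2 ℕ)) (hK : IsKernel K)
    [Countable V] (G : SimpleGraph V) (hc : G.Connected) (R : ℕ → Setoid V) (ℓ : V → I)
    (h0 : R 0 = ⊥) (hR : Monotone R) (hfin : ∀ k v, {w | R k v w}.Finite)
    (hℓ : Function.Injective ℓ) (hex : ∀ x y, G.Adj x y → ∃ k, R k x y)
    (F : Finset (Sym2 V)) (A : Set (Sym2 V)) (L : ℝ)
    (hL : ∀ C : ℕ → Finset V, (∀ v, ∀ᶠ k in atTop, v ∈ C k) →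
      Tendsto (fun k => ustProb ⊥ (ins G (C k) : Set (Sym2 V)) F A) atTop (𝓝 L)) :
    (labels2 V {ξ | Tlim K G R ℓ ξ ∩ F = A}).toReal = L := by
  classical
  obtain ⟨v0⟩ := hc.nonempty
  set C : ℕ → Finset V := fun k => (hfin k v0).toFinset with hCdef
  have hCc : ∀ k, IsClass (R k) (C k) := fun k => ⟨v0, fun w => by simp [hCdef]⟩
  have hCe : ∀ v, ∀ᶠ k in atTop, v ∈ C k := by
    intro v
    obtain ⟨k, hk⟩ := eventually_rel hc hR hex v0 v
    filter_upwards [eventually_ge_atTop k] with j hj
    simpa [hCdef] using hk j hj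
  have hL' := hL C hCe
  -- the vertices of F
  have hFe : ∀ᶠ k in atTop, ∀ e ∈ F, ∀ a ∈ e, a ∈ C k := by
    rw [Filter.eventually_all_finset]
    intro e _
    induction e using Sym2.ind with
    | _ x y =>
      filter_upwards [hCe x, hCe y] with k hx hy a ha
      rcases Sym2.mem_iff.1 ha with rfl | rfl
      · exact hx
      · exact hy
  obtain ⟨k0, hk0⟩ := Filter.eventually_atTop.1 hFe
  have hFi : ∀ k, k0 ≤ k → ∀ e ∈ F, e ∈ G.edgeSet → e ∈ ins G (C k) := fun k hk e he heG =>
    mem_ins.2 ⟨heG, hk0 k hk e he⟩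
  have hFinn : ∀ k, k0 ≤ k → ∀ e ∈ F, e ∈ Inn (R k) := by
    intro k hk e he a ha b hb
    have h1 := hk0 k hk e he a ha
    have h2 := hk0 k hk e he b hb
    simp only [hCdef, Set.Finite.mem_toFinset, Set.mem_ofPred_eq] at h1 h2
    exact Setoid.trans' _ (Setoid.symm' _ h1) h2
  have hdec : ∀ ξ k, k0 ≤ k → Tk K G R ℓ ξ (k + 1) ∩ F ⊆ Tk K G R ℓ ξ k ∩ F := by
    intro ξ k hk e he
    exact ⟨hDEC K hK V G R ℓ ξ h0 hR hfin hℓ k ⟨he.1, hFinn k hk e he.2⟩, he.2⟩
  have hdec' : ∀ ξ k j, k0 ≤ k → k ≤ j → Tk K G R ℓ ξ j ∩ F ⊆ Tk K G R ℓ ξ k ∩ F := by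
    intro ξ k j hk hj
    induction j, hj using Nat.le_induction with
    | base => exact subset_rfl
    | succ j hj ih => exact (hdec ξ j (hk.trans hj)).trans ih
  have hmeas : ∀ k, k0 ≤ k → MeasurableSet {ξ | Tk K G R ℓ ξ k ∩ F = A} := fun k hk =>
    (hLAW K hK V G R ℓ h0 hR hfin hℓ k (C k) (hCc k) F A (hFi k hk)).1
  have hprob : ∀ k, k0 ≤ k → (labels2 V {ξ | Tk K G R ℓ ξ k ∩ F = A}).toReal =
      ustProb ⊥ (ins G (C k) : Set (Sym2 V)) F A := fun k hk =>
    (hLAW K hK V G R ℓ h0 hR hfin hℓ k (C k) (hCc k) F A (hFi k hk)).2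
  -- eventually constant
  have hconst : ∀ ξ, ∀ᶠ k in atTop, Tk K G R ℓ ξ k ∩ F = Tlim K G R ℓ ξ ∩ F := by
    intro ξ
    have h1 : ∀ e ∈ F, ∀ᶠ k in atTop, (e ∈ Tk K G R ℓ ξ k ↔ e ∈ Tlim K G R ℓ ξ) := by
      intro e he
      by_cases h : e ∈ Tlim K G R ℓ ξ
      · obtain ⟨n, hn⟩ := h
        filter_upwards [eventually_ge_atTop n] with k hk
        exact ⟨fun _ => ⟨n, hn⟩, fun _ => hn k hk⟩
      · have h2 : ∃ k, k0 ≤ k ∧ e ∉ Tk K G R ℓ ξ k := by
          by_contra hcon
          push Not at hcon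
          exact h ⟨k0, hcon⟩
        obtain ⟨k, hk, hek⟩ := h2
        filter_upwards [eventually_ge_atTop k] with j hj
        constructor
        · intro hej
          exact (hek (hdec' ξ k j hk hj ⟨hej, he⟩).1).elim
        · intro h'
          exact (h h').elim
    have h2 := (Filter.eventually_all_finset F).2 h1
    filter_upwards [h2] with k hk
    ext e
    constructor
    · rintro ⟨h1, h2⟩
      exact ⟨(hk e h2).1 h1, h2⟩
    · rintro ⟨h1, h2⟩
      exact ⟨(hk e h2).2 h1, h2⟩
  have htend : Tendsto (fun k => labels2 V {ξ | Tk K G R ℓ ξ (k + k0) ∩ F = A}) atTop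
      (𝓝 (labels2 V {ξ | Tlim K G R ℓ ξ ∩ F = A})) := by
    have : IsProbabilityMeasure (labels2 V) := by unfold labels2; infer_instance
    refine tendsto_measure_of_tendsto_indicator_of_isFiniteMeasure atTop (labels2 V)
      (fun k => hmeas (k + k0) (by omega)) ?_
    intro ξ
    have h1 := (tendsto_add_atTop_nat k0).eventually (hconst ξ)
    filter_upwards [h1] with k hk
    constructor
    · intro h
      have h' : Tk K G R ℓ ξ (k + k0) ∩ F = A := h
      exact hk ▸ h'
    · intro h
      have h' : Tlim K G R ℓ ξ ∩ F = A := h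
      exact hk.trans h'
  have h1 : Tendsto (fun k => (labels2 V {ξ | Tk K G R ℓ ξ (k + k0) ∩ F = A}).toReal) atTop
      (𝓝 (labels2 V {ξ | Tlim K G R ℓ ξ ∩ F = A}).toReal) := by
    have : IsProbabilityMeasure (labels2 V) := by unfold labels2; infer_instance
    exact (ENNReal.tendsto_toReal (measure_ne_top _ _)).comp htend
  have h2 : Tendsto (fun k => (labels2 V {ξ | Tk K G R ℓ ξ (k + k0) ∩ F = A}).toReal) atTop
      (𝓝 L) := by
    have h3 := hL'.comp (tendsto_add_atTop_nat k0)
    refine h3.congr ?_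
    intro k
    simp only [Function.comp]
    rw [hprob (k + k0) (by omega)]
  exact tendsto_nhds_unique h1 h2

/-- the final assembly -/
theorem main (hKER : S_KER) (hLAB : S_LAB) (hEQV : S_EQV) (hMEAS : S_MEAS) (hPART : S_PART)
    (hCONV : S_CONV) (hLAW : S_LAW) (hDEC : S_DEC) (hINJ : S_INJ) (hFINC : S_FINC) : S_MAIN := by
  intro V _ Ω _ P _ X hU hR
  obtain ⟨K, hK⟩ := hKER
  obtain ⟨g, hg, hgl⟩ := hLAB
  obtain ⟨c, N, hc, hN, hp⟩ := hPART V Ω P X hU hR
  have hg2 : Measurable (fun u : V → I => ((fun v => (g (u v)).1, fun v => (g (u v)).2) :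
      (V → ℕ → I) × (V → ℕ → I))) := by
    refine Measurable.prodMk ?_ ?_
    · exact measurable_pi_lambda _ fun v => (hg.comp (measurable_pi_apply v)).fst
    · exact measurable_pi_lambda _ fun v => (hg.comp (measurable_pi_apply v)).snd
  refine ⟨fun G u => Ph K c N G (fun v => (g (u v)).1) (fun v => (g (u v)).2), ⟨?_, ?_, ?_⟩, ?_⟩
  · intro e
    have h1 := hMEAS K hK c N V e
    let _ := graphSigma V
    have h2 : Measurable (fun p : SimpleGraph V × (V → I) =>
        ((p.1, (fun v => (g (p.2 v)).1, fun v => (g (p.2 v)).2)) :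
          SimpleGraph V × ((V → ℕ → I) × (V → ℕ → I)))) :=
      Measurable.prodMk measurable_fst (hg2.comp measurable_snd)
    exact h2 h1
  · intro G u
    exact Tlim_subset K G _ _ _
  · intro G G' γ u
    exact hEQV K c N V G G' γ (fun v => (g (u v)).1) (fun v => (g (u v)).2)
  · filter_upwards [hR, hp] with ω hRω hpω
    intro B hB F A
    obtain ⟨L, hL1, hL2⟩ := hCONV V (X.graph ω) (X.locallyFinite ω) hRω F A
    have hlim := hL2 B (fun v => by
      obtain ⟨n, hn⟩ := hB.union v
      filter_upwards [eventually_ge_atTop n] with k hk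
      exact hB.mono hk hn)
    have key : (labels V {u | Ph K c N (X.graph ω) (fun v => (g (u v)).1) (fun v => (g (u v)).2)
        ∩ F = A}).toReal = L := by
      have hms : MeasurableSet {p : (V → ℕ → I) × (V → ℕ → I) |
          Ph K c N (X.graph ω) p.1 p.2 ∩ F = A} := by
        by_cases hA : A ⊆ F
        · have h1 : {p : (V → ℕ → I) × (V → ℕ → I) | Ph K c N (X.graph ω) p.1 p.2 ∩ F = A} =
              ⋂ e ∈ F, {p | e ∈ Ph K c N (X.graph ω) p.1 p.2 ↔ e ∈ A} := by
            ext p
            simp only [Set.mem_iInter]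
            constructor
            · intro h e he
              have h' : Ph K c N (X.graph ω) p.1 p.2 ∩ F = A := h
              show e ∈ Ph K c N (X.graph ω) p.1 p.2 ↔ e ∈ A
              rw [← h']
              exact ⟨fun h1 => ⟨h1, he⟩, fun h1 => h1.1⟩
            · intro h
              show Ph K c N (X.graph ω) p.1 p.2 ∩ F = A
              ext e
              constructor
              · rintro ⟨h1, h2⟩
                exact (h e h2).1 h1
              · intro h1
                exact ⟨(h e (hA h1)).2 h1, hA h1⟩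
          rw [h1]
          refine Finset.measurableSet_biInter F fun e _ => ?_
          have h2 : MeasurableSet {p : (V → ℕ → I) × (V → ℕ → I) |
              e ∈ Ph K c N (X.graph ω) p.1 p.2} := by
            let _ := graphSigma V
            have h3 := hMEAS K hK c N V e
            have h4 : Measurable (fun p : (V → ℕ → I) × (V → ℕ → I) => (X.graph ω, p)) :=
              measurable_prodMk_left
            exact h4 h3
          by_cases he : e ∈ A
          · simpa only [he, iff_true] using h2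
          · simp only [he, iff_false]
            exact h2.compl
        · convert MeasurableSet.empty
          rw [Set.eq_empty_iff_forall_notMem]
          intro p hp
          have hp' : Ph K c N (X.graph ω) p.1 p.2 ∩ F = A := hp
          exact hA (hp' ▸ Set.inter_subset_right)
      have h1 : labels V {u | Ph K c N (X.graph ω) (fun v => (g (u v)).1) (fun v => (g (u v)).2)
          ∩ F = A} = ((labels2 V).prod (labels2 V))
            {p | Ph K c N (X.graph ω) p.1 p.2 ∩ F = A} := by
        rw [← hgl V, Measure.map_apply hg2 hms]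
        rfl
      have hpr : IsProbabilityMeasure (labels2 V) := by unfold labels2; infer_instance
      rw [h1, Measure.prod_apply hms]
      have h2 : ∀ᵐ a ∂(labels2 V), labels2 V (Prod.mk a ⁻¹'
          {p | Ph K c N (X.graph ω) p.1 p.2 ∩ F = A}) = ENNReal.ofReal L := by
        filter_upwards [hpω, hINJ V] with a ha hinj
        have h3 := core hLAW hDEC K hK (X.graph ω) (X.connected ω) (RR c N (X.graph ω) a)
          (fun v => a v 0) rfl (RR_mono c N _ a)
          (RR_fin hFINC c N hN _ (X.locallyFinite ω) a) hinj ha F A L hL1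
        have h4 : labels2 V {ξ | Tlim K (X.graph ω) (RR c N (X.graph ω) a) (fun v => a v 0) ξ ∩ F
            = A} = ENNReal.ofReal L := by
          rw [← h3, ENNReal.ofReal_toReal (measure_ne_top _ _)]
        exact h4
      rw [lintegral_congr_ae h2, lintegral_const, measure_univ, mul_one, ENNReal.toReal_ofReal]
      -- L is nonnegative
      refine ge_of_tendsto' hlim fun n => ?_
      unfold ustProb
      positivity
    simp only [] at *
    rw [key]
    exact hlim

end Run7.h381.WU
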