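import Pool.Agent.Run7.h381.WU.Defs

/-!
# Project WU (MP_688e31_pr): statements of the pieces

A piece `X` is proved by a theorem `Run7.hNNN.WU.X : Run7.h381.WU.S_X` (or with hypotheses
`S_Y → S_Z → S_X` for the pieces it uses); `Main` is the final assembly.
-/

set_option autoImplicit false

namespace Run7.h381.WU

open MeasureTheory Filter Finset
open scoped ENNReal Topology unitInterval
open Pool.Agent.TH968.UST (Conn IsSpan trees wired touch ustProb)
open Pool.Agent.H424R3.Pow (RandomRootedGraph graphSigma hitWithin returnWithin nbrAvg Recurrent)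

/-! ### Finite trees -/

/-- `trees r E` is not empty -/
def S_T1 : Prop := ∀ (V : Type) (r : Setoid V) (E : Finset (Sym2 V)), (trees r E).Nonempty

/-- contraction: the spanning trees containing the edge `xy` are the `insert s(x, y) T'`, `T'` a
spanning tree after the identification of `x` and `y` (which does not contain `s(x, y)`) -/
def S_T2 : Prop := ∀ (V : Type) (r : Setoid V) (E : Finset (Sym2 V)) (x y : V), s(x, y) ∈ E → ¬ r x y →
  ∀ T : Finset (Sym2 V), s(x, y) ∉ T →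
    (∀ [DecidableEq (Sym2 V)], insert s(x, y) T ∈ trees r E ↔ T ∈ trees (glue r x y) E)

/-- deletion of an edge which is not in all spanning trees -/
def S_T3 : Prop := ∀ (V : Type) [DecidableEq (Sym2 V)] (r : Setoid V) (E : Finset (Sym2 V))
  (e : Sym2 V) (T₀ : Finset (Sym2 V)), T₀ ∈ trees r E → e ∉ T₀ →
    ∀ T, T ∈ trees r (E.erase e) ↔ T ∈ trees r E ∧ e ∉ T

/-- deletion of an edge which is in all spanning trees -/
def S_T3' : Prop := ∀ (V : Type) [DecidableEq (Sym2 V)] (r : Setoid V) (E : Finset (Sym2 V))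
  (e : Sym2 V), e ∈ E → (∀ T ∈ trees r E, e ∈ T) →
    ∀ T, T ∈ trees r (E.erase e) ↔ e ∉ T ∧ insert e T ∈ trees r E

/-- inside `C` the identification of the vertices outside `C` has no effect -/
def S_T4 : Prop := ∀ (V : Type) (G : SimpleGraph V) (C : Finset V),
  trees (wired C) (ins G C) = trees ⊥ (ins G C)

/-- all spanning trees have the same size -/
def S_T5 : Prop := ∀ (V : Type) (r : Setoid V) (E : Finset (Sym2 V)),
  ∀ T ∈ trees r E, ∀ T' ∈ trees r E, T.card = T'.card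

open Classical in
/-- spanning trees of a set of edges inside the classes of `s` -/
def S_T6 : Prop := ∀ (V : Type) (s : Setoid V) (E T : Finset (Sym2 V)), (∀ e ∈ E, e ∈ Inn s) →
  (T ∈ trees ⊥ E ↔ T ⊆ E ∧ ∀ v : V, T.filter (fun e => ∀ a ∈ e, s v a) ∈
    trees ⊥ (E.filter (fun e => ∀ a ∈ e, s v a)))

open Classical in
/-- transport along injective maps -/
def S_T7 : Prop := ∀ (V W : Type) (f : V → W) (C : Finset V), Set.InjOn f (C : Set V) →
  ∀ E T : Finset (Sym2 V), (∀ e ∈ E, ∀ a ∈ e, a ∈ C) → T ⊆ E →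
    (T.image (Sym2.map f) ∈ trees ⊥ (E.image (Sym2.map f)) ↔ T ∈ trees ⊥ E)

/-- `ustProb` as a mean value -/
def S_T8 : Prop := ∀ (V : Type) (r : Setoid V) (E : Finset (Sym2 V)) (F : Finset (Sym2 V))
  (A : Set (Sym2 V)), ustProb r (E : Set (Sym2 V)) F A =
    Av r E (fun T => by classical exact if (T : Set (Sym2 V)) ∩ F = A then 1 else 0)

/-! ### Negative association -/

/-- Feder-Mihail: homogeneous hereditarily negatively correlated families -/
def S_FM : Prop := ∀ (α : Type) [DecidableEq α] (B : Finset (Finset α)) (n : ℕ),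
  (∀ T ∈ B, T.card = n) → HNC B → ∀ (e : α) (g : Finset α → ℝ), Monotone g →
    (∑ T ∈ B.filter (e ∈ ·), g (T.erase e)) * B.card ≤
      (B.filter (e ∈ ·)).card * ∑ T ∈ B, g (T.erase e)

/-- spanning trees are hereditarily negatively correlated -/
def S_HNC : Prop := ∀ (V : Type) [DecidableEq (Sym2 V)] (r : Setoid V) (E : Finset (Sym2 V)),
  HNC (trees r E)

/-- stochastic domination under deletion -/
def S_DEL : Prop := ∀ (V : Type) [DecidableEq (Sym2 V)] (r : Setoid V) (E E' : Finset (Sym2 V)),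
  E' ⊆ E → ∀ g : Finset (Sym2 V) → ℝ, Monotone g → Av r E (fun T => g (T ∩ E')) ≤ Av r E' g

/-- existence of the potential -/
def S_POT : Prop := ∀ (V : Type) (r : Setoid V) (E : Finset (Sym2 V)) (x y : V), Conn r E x y →
  ∃ φ : V → ℝ, IsPot r E x y φ ∧ φ y = 0 ∧ ∀ v, 0 ≤ φ v ∧ φ v ≤ φ x

/-- Kirchhoff's formula -/
def S_KIR : Prop := ∀ (V : Type) (r : Setoid V) (E : Finset (Sym2 V)) (x y : V) (φ : V → ℝ),
  ¬ r x y → Conn r E x y → IsPot r E x y φ →
    ((trees (glue r x y) E).card : ℝ) = (φ x - φ y) * (trees r E).card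

/-! ### The free and the wired tree -/

/-- recurrence: the free and the wired tree contain an edge with about the same probability -/
def S_EDGE : Prop := ∀ (V : Type) (G : SimpleGraph V), (∀ x, (G.neighborSet x).Finite) → Rec G →
  ∀ e ∈ G.edgeSet, ∀ ε > (0 : ℝ), ∃ K : Finset V, ∀ C : Finset V, K ⊆ C → ∀ E : Finset (Sym2 V),
    (E : Set (Sym2 V)) = touch G C →
    Av ⊥ (ins G C) (fun T => by classical exact if e ∈ T then 1 else 0) ≤
      Av (wired C) E (fun T => by classical exact if e ∈ T then 1 else 0) + ε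

/-- convergence of the free and of the wired trees to the same limit -/
def S_CONV : Prop := ∀ (V : Type) (G : SimpleGraph V), (∀ x, (G.neighborSet x).Finite) → Rec G →
  ∀ (F : Finset (Sym2 V)) (A : Set (Sym2 V)), ∃ L : ℝ,
    (∀ C : ℕ → Finset V, (∀ v, ∀ᶠ k in atTop, v ∈ C k) →
      Tendsto (fun k => ustProb ⊥ (ins G (C k) : Set (Sym2 V)) F A) atTop (𝓝 L)) ∧
    (∀ B : ℕ → Finset V, (∀ v, ∀ᶠ k in atTop, v ∈ B k) →
      Tendsto (fun k => ustProb (wired (B k)) (touch G (B k)) F A) atTop (𝓝 L))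

/-! ### Sampling -/

/-- existence of the kernel (domination and Hall's theorem) -/
def S_KER : Prop := ∃ K, IsKernel K

open Classical in
/-- the forests are spanning trees of the classes -/
def S_TRE : Prop := ∀ K, IsKernel K → ∀ (V : Type) (G : SimpleGraph V) (R : ℕ → Setoid V)
  (ℓ : V → I) (ξ : V → ℕ → I), R 0 = ⊥ → Monotone R → (∀ k v, {w | R k v w}.Finite) →
  Function.Injective ℓ → ∀ k,
    Tk K G R ℓ ξ k ⊆ Inn (R k) ∩ G.edgeSet ∧
    (∀ C, IsClass (R k) C → (ins G C).filter (· ∈ Tk K G R ℓ ξ k) ∈ trees ⊥ (ins G C)) ∧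
    (∀ C, IsClass (R (k + 1)) C → (ins G C).filter (· ∈ Tk K G R ℓ ξ k) ∈
      trees ⊥ ((ins G C).filter (· ∈ Inn (R k))))

/-- the forests decrease inside the classes -/
def S_DEC : Prop := ∀ K, IsKernel K → ∀ (V : Type) (G : SimpleGraph V) (R : ℕ → Setoid V)
  (ℓ : V → I) (ξ : V → ℕ → I), R 0 = ⊥ → Monotone R → (∀ k v, {w | R k v w}.Finite) →
  Function.Injective ℓ → ∀ k, Tk K G R ℓ ξ (k + 1) ∩ Inn (R k) ⊆ Tk K G R ℓ ξ k

/-- the law of the forests -/
def S_LAW : Prop := ∀ K, IsKernel K → ∀ (V : Type) [Countable V] (G : SimpleGraph V)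
  (R : ℕ → Setoid V) (ℓ : V → I), R 0 = ⊥ → Monotone R → (∀ k v, {w | R k v w}.Finite) →
  Function.Injective ℓ → ∀ (k : ℕ) (C : Finset V), IsClass (R k) C →
  ∀ (F : Finset (Sym2 V)) (A : Set (Sym2 V)), (∀ e ∈ F, e ∈ G.edgeSet → e ∈ ins G C) →
    MeasurableSet {ξ | Tk K G R ℓ ξ k ∩ F = A} ∧
    (labels2 V {ξ | Tk K G R ℓ ξ k ∩ F = A}).toReal = ustProb ⊥ (ins G C : Set (Sym2 V)) F A

/-- equivariance -/
def S_EQV : Prop := ∀ K c N (V : Type) (G G' : SimpleGraph V) (γ : G ≃g G') (a ξ : V → ℕ → I),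
  Ph K c N G' (fun v => a (γ.symm v)) (fun v => ξ (γ.symm v)) = Sym2.map γ '' Ph K c N G a ξ

/-- measurability of the partitions -/
def S_MSIM : Prop := ∀ (V : Type) [Countable V] (c : ℝ) (N : ℕ) (x y : V),
  @MeasurableSet (SimpleGraph V × (V → I)) (@Prod.instMeasurableSpace _ _ (graphSigma V) _)
    {p | sim c N p.1 p.2 x y}

/-- measurability of the forest -/
def S_MEAS : Prop := ∀ K, IsKernel K → ∀ c N (V : Type) [Countable V] (e : Sym2 V),
  @MeasurableSet (SimpleGraph V × ((V → ℕ → I) × (V → ℕ → I)))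
    (@Prod.instMeasurableSpace _ _ (graphSigma V) _) {p | e ∈ Ph K c N p.1 p.2.1 p.2.2}

/-! ### Labels -/

/-- splitting of the labels -/
def S_LAB : Prop := ∃ g : I → (ℕ → I) × (ℕ → I), Measurable g ∧ ∀ (V : Type) [Countable V],
  (labels V).map (fun u => ((fun v => (g (u v)).1), (fun v => (g (u v)).2))) =
    (labels2 V).prod (labels2 V)

/-- the rank labels are different almost surely -/
def S_INJ : Prop := ∀ (V : Type) [Countable V], ∀ᵐ a ∂(labels2 V),
  Function.Injective (fun v => a v 0)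

/-! ### Partitions -/

/-- the averaged laws of the walks from `x` and `y`: total variation, mass, range -/
def S_WALK : Prop := ∀ (V : Type) (G : SimpleGraph V), (∀ x, (G.neighborSet x).Finite) →
  ∀ N : ℕ, 1 ≤ N →
  (∀ x w, 0 ≤ hh G N x w) ∧
  (∀ (x y : V) (M : ℕ) (W : Finset V), ∑ w ∈ W, |hh G N x w - hh G N y w| ≤
    2 * (1 - hitWithin G x M y) + 2 * M / N) ∧
  ((∀ x, (G.neighborSet x).Nonempty) → ∀ x, ∃ W : Finset V, (∀ w, w ∉ W → hh G N x w = 0) ∧
    ∑ w ∈ W, hh G N x w = 1) ∧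
  (∀ w, {y | hh G N y w ≠ 0}.Finite)

/-- the probability that two vertices are separated -/
def S_CUT : Prop := ∀ (V : Type) [Countable V] (G : SimpleGraph V),
  (∀ x, (G.neighborSet x).Finite) → (∀ x, (G.neighborSet x).Nonempty) →
  ∀ (c : ℝ) (N M : ℕ), 0 < c → 1 ≤ N → ∀ x y,
    labels V {τ | ¬ sim c N G τ x y} ≤
      ENNReal.ofReal (Real.exp (-c) + c * (2 * (1 - hitWithin G x M y) + 2 * M / N))

/-- the classes are finite -/
def S_FINC : Prop := ∀ (V : Type) (G : SimpleGraph V), (∀ x, (G.neighborSet x).Finite) →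
  ∀ (c : ℝ) (N : ℕ) (τ : V → I) (x : V), 1 ≤ N → {y | sim c N G τ x y}.Finite

/-- the partitions exhaust a recurrent unimodular random graph, for suitable parameters -/
def S_PART : Prop := ∀ (V : Type) [Countable V] (Ω : Type) [MeasurableSpace Ω] (P : Measure Ω)
  [IsProbabilityMeasure P] (X : RandomRootedGraph V P), X.Unimodular →
  (∀ᵐ ω ∂P, Rec (X.graph ω)) →
  ∃ (c : ℕ → ℝ) (N : ℕ → ℕ), (∀ k, 0 < c k) ∧ (∀ k, 1 ≤ N k) ∧
    ∀ᵐ ω ∂P, ∀ᵐ a ∂(labels2 V), ∀ x y, (X.graph ω).Adj x y → ∃ k, RR c N (X.graph ω) a k x y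

/-! ### The theorem -/

/-- the wired uniform spanning tree of a recurrent unimodular random graph is a factor of iid -/
def S_MAIN : Prop := ∀ (V : Type) [Countable V] (Ω : Type) [MeasurableSpace Ω] (P : Measure Ω)
  [IsProbabilityMeasure P] (X : RandomRootedGraph V P), X.Unimodular →
  (∀ᵐ ω ∂P, Rec (X.graph ω)) →
  ∃ Φ : SimpleGraph V → (V → I) → Set (Sym2 V), IsFactorMap Φ ∧
    ∀ᵐ ω ∂P, HasLawWUSF (X.graph ω) (labels V) (Φ (X.graph ω))

end Run7.h381.WU
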